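import Pool.Agent.MT100B.Stmts
import Pool.Agent.Helper19_MT100.Hgt

/-! Module HGT of MT100B: the entries of `Hyp D` (odd order) are power series of G-type. -/

set_option autoImplicit false

namespace Pool.Agent.MT100B.H39

open Finset Pool.Agent.MT100 Pool.Agent.MT100.H19

/-- constant term of the additional factor -/
noncomputable def c0 (k : ℕ) : ℚ := ∏ j ∈ range k, (((j : ℚ) + 1 / 2) * ((j : ℚ) + 1)⁻¹)

/-- the normalized additional factor -/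
noncomputable def gc (k : ℕ) : PowerSeries ℚ :=
  ∏ j ∈ range k, (lin ((j : ℚ) + 1 / 2)⁻¹ * geo ((j : ℚ) + 1)⁻¹)

theorem Ch_eq (k : ℕ) : Ch k = PowerSeries.C (c0 k) * gc k := by
  rw [Ch, c0, gc, map_prod, ← Finset.prod_mul_distrib]
  refine Finset.prod_congr rfl fun j _ => ?_
  have e1 : (j : ℚ) + 1 / 2 ≠ 0 := by positivity
  have e3 : (j : ℚ) + 1 ≠ 0 := by positivity
  rw [C_add_X e1, C_add_X_inv e3, map_mul]
  ring

theorem c0_mem (k : ℕ) : (4 : ℚ) ^ k * c0 k ∈ Zr := by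
  have h := bin_mem (x := 1 / 2) (p := 1) (q := 2) (by norm_num) (by norm_num) k
  have e : ((2 : ℕ) : ℚ) ^ (2 * k) = 4 ^ k := by rw [pow_mul]; norm_num
  rw [e] at h
  exact h

theorem gc_IB {q : ℕ} (hq : 0 < q) (hq2 : 2 ∣ q) {k K : ℕ} (hk : k ≤ K) :
    IB (Nat.lcmUpto (q * K)) (gc k) := by
  have key : ∀ m : ℕ, 1 ≤ m → m ≤ q * K → ∀ c : ℕ,
      (Nat.lcmUpto (q * K) : ℚ) * ((c : ℚ) / m) ∈ Zr := by
    intro m h1 h2 c
    obtain ⟨e, he⟩ : m ∣ Nat.lcmUpto (q * K) :=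
      Finset.dvd_lcm (f := id) (Finset.mem_Icc.mpr ⟨h1, h2⟩)
    have hm : (m : ℚ) ≠ 0 := by exact_mod_cast (by omega : m ≠ 0)
    have : (Nat.lcmUpto (q * K) : ℚ) * ((c : ℚ) / m) = ((e * c : ℕ) : ℚ) := by
      rw [he]
      push_cast
      field_simp
    rw [this]
    exact nat_mem _
  refine IB.prod _ _ fun j hj => ?_
  have hj' : j + 1 ≤ K := by have := Finset.mem_range.mp hj; omega
  obtain ⟨m, rfl⟩ := hq2
  have hm : 0 < m := by omega
  have hj2 : 2 * m * (j + 1) ≤ 2 * m * K := Nat.mul_le_mul_left _ hj'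
  have hj3 : 2 * (j + 1) ≤ 2 * m * (j + 1) := Nat.mul_le_mul_right _ (by omega)
  refine (IB.lin ?_).mul (IB.geo ?_)
  · have : ((j : ℚ) + 1 / 2)⁻¹ = ((2 : ℕ) : ℚ) / ((2 * j + 1 : ℕ) : ℚ) := by
      have h1 : (j : ℚ) + 1 / 2 = ((2 * j + 1 : ℕ) : ℚ) / ((2 : ℕ) : ℚ) := by
        push_cast; ring
      rw [h1, inv_div]
    rw [this]
    exact key _ (by omega) (by omega) 2
  · have : ((j : ℚ) + 1)⁻¹ = ((1 : ℕ) : ℚ) / ((j + 1 : ℕ) : ℚ) := by push_cast; rw [one_div]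
    rw [this]
    exact key _ (by omega) (by omega) 1

/-- the integrality of the coefficients -/
theorem coeff_mem (D : Dat) {q : ℕ} (hq : 0 < q) (hq2 : 2 ∣ q)
    (h : ∀ i, ∃ p : ℕ, 0 < p ∧ p < q ∧ D.al i = p / q) {k K : ℕ} (hk : k ≤ K)
    (a l : Fin (ro D)) :
    (((D.lam.den * q ^ (4 * D.s) * 4) ^ K * Nat.lcmUpto (q * K) ^ (ro D) : ℕ) : ℚ) *
      PowerSeries.coeff k (Hyp D a l) ∈ Zr := by
  have hA : Ak D k = PowerSeries.C (a0 D k * c0 k) * (gk D k * gc k) := by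
    rw [Ak, MT100.H19.Ak_eq, Ch_eq, map_mul]
    ring
  rw [Hyp, PowerSeries.coeff_mk, hA, PowerSeries.coeff_mul, Finset.mul_sum]
  refine Subring.sum_mem _ fun p hp => ?_
  have hp' := Finset.HasAntidiagonal.mem_antidiagonal.mp hp
  rw [PowerSeries.coeff_C_mul]
  have h1 : PowerSeries.coeff p.1 ((PowerSeries.C (k : ℚ) + PowerSeries.X) ^ (a : ℕ)) ∈ Zr := by
    have h2 : IB 1 ((PowerSeries.C (k : ℚ) + PowerSeries.X) ^ (a : ℕ)) := by
      refine IB.pow ?_ _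
      intro m
      rw [map_add, PowerSeries.coeff_C, PowerSeries.coeff_X, Nat.cast_one, one_pow, one_mul]
      refine Subring.add_mem _ ?_ ?_
      · split_ifs
        · exact nat_mem k
        · exact Subring.zero_mem _
      · split_ifs
        · exact Subring.one_mem _
        · exact Subring.zero_mem _
    simpa using h2 p.1
  have h2 : (((D.lam.den * q ^ (4 * D.s) * 4 : ℕ) : ℚ)) ^ k * (a0 D k * c0 k) ∈ Zr := by
    have e : (((D.lam.den * q ^ (4 * D.s) * 4 : ℕ) : ℚ)) ^ k * (a0 D k * c0 k) =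
        (((D.lam.den * q ^ (4 * D.s) : ℕ) : ℚ) ^ k * a0 D k) * ((4 : ℚ) ^ k * c0 k) := by
      rw [Nat.cast_mul _ 4, mul_pow]
      push_cast
      ring
    rw [e]
    exact Subring.mul_mem _ (a0_mem D hq h k) (c0_mem k)
  have h3 := ((gk_IB D hq h hk).mul (gc_IB hq hq2 hk)) p.2
  have h4 : p.2 ≤ ro D := by have := l.2; omega
  have h5 : (((D.lam.den * q ^ (4 * D.s) * 4) ^ K * Nat.lcmUpto (q * K) ^ (ro D) : ℕ) : ℚ) *
      (PowerSeries.coeff p.1 ((PowerSeries.C (k : ℚ) + PowerSeries.X) ^ (a : ℕ)) *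
        ((a0 D k * c0 k) * PowerSeries.coeff p.2 (gk D k * gc k))) =
      (((D.lam.den * q ^ (4 * D.s) * 4) ^ (K - k) * Nat.lcmUpto (q * K) ^ (ro D - p.2) : ℕ) : ℚ) *
      (PowerSeries.coeff p.1 ((PowerSeries.C (k : ℚ) + PowerSeries.X) ^ (a : ℕ)) *
        ((((D.lam.den * q ^ (4 * D.s) * 4 : ℕ) : ℚ) ^ k * (a0 D k * c0 k)) *
        ((Nat.lcmUpto (q * K) : ℚ) ^ p.2 * PowerSeries.coeff p.2 (gk D k * gc k)))) := by
    have e1 : (D.lam.den * q ^ (4 * D.s) * 4) ^ K = (D.lam.den * q ^ (4 * D.s) * 4) ^ (K - k) *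
        (D.lam.den * q ^ (4 * D.s) * 4) ^ k := by rw [← pow_add, Nat.sub_add_cancel hk]
    have e2 : Nat.lcmUpto (q * K) ^ (ro D) = Nat.lcmUpto (q * K) ^ (ro D - p.2) *
        Nat.lcmUpto (q * K) ^ p.2 := by rw [← pow_add, Nat.sub_add_cancel h4]
    rw [e1, e2]
    push_cast
    ring
  rw [h5]
  exact Subring.mul_mem _ (nat_mem _) (Subring.mul_mem _ h1 (Subring.mul_mem _ h2 h3))

theorem nl_Ch (R k : ℕ) : nl R (Ch k) ≤ (2 * (R : ℚ)) ^ k := by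
  refine (nl_prod_le R _ _).trans ?_
  refine (Finset.prod_le_prod (g := fun _ => 2 * (R : ℚ))
    (fun _ _ => nl_nonneg R _) fun j _ => ?_).trans (le_of_eq (by simp))
  have hj : (0 : ℚ) ≤ j := by positivity
  have e3 : (j : ℚ) + 1 ≠ 0 := by positivity
  have f1 : nl R (PowerSeries.C ((j : ℚ) + 1 / 2) + PowerSeries.X) ≤ 2 * (j + 1) :=
    (nl_CX R (by linarith)).trans (by linarith)
  have f3 : nl R ((PowerSeries.C ((j : ℚ) + 1) + PowerSeries.X)⁻¹) ≤ ((j : ℚ) + 1)⁻¹ * R := by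
    rw [C_add_X_inv e3]
    refine (nl_mul R _ _).trans (mul_le_mul (nl_C R (by positivity)) (nl_geo R (by positivity) ?_)
      (nl_nonneg R _) (by positivity))
    exact inv_le_one_of_one_le₀ (by linarith)
  calc _ ≤ nl R (PowerSeries.C ((j : ℚ) + 1 / 2) + PowerSeries.X) *
        nl R ((PowerSeries.C ((j : ℚ) + 1) + PowerSeries.X)⁻¹) := nl_mul R _ _
    _ ≤ (2 * (j + 1)) * (((j : ℚ) + 1)⁻¹ * R) :=
        mul_le_mul f1 f3 (nl_nonneg R _) (by positivity)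
    _ = 2 * (R : ℚ) := by
        field_simp

theorem growth (D : Dat) (a l : Fin (ro D)) (k : ℕ) :
    |PowerSeries.coeff k (Hyp D a l)| ≤
      (2 ^ (ro D) * (D.lam * (4 * (ro D : ℚ) ^ 2) ^ D.s * (2 * (ro D : ℚ)))) ^ k := by
  rw [Hyp, PowerSeries.coeff_mk]
  refine (coeff_le_nl l.2 _).trans ((nl_mul (ro D) _ _).trans ?_)
  rw [mul_pow]
  have hl := D.lam_pos.le
  refine mul_le_mul ?_ ?_ (nl_nonneg _ _) (by positivity)
  · calc nl (ro D) ((PowerSeries.C (k : ℚ) + PowerSeries.X) ^ (a : ℕ))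
        ≤ nl (ro D) (PowerSeries.C (k : ℚ) + PowerSeries.X) ^ (a : ℕ) := nl_pow_le _ _ _
      _ ≤ ((k : ℚ) + 1) ^ (a : ℕ) :=
          pow_le_pow_left₀ (nl_nonneg _ _) (nl_CX _ (by positivity)) _
      _ ≤ ((2 : ℚ) ^ k) ^ (a : ℕ) := by
          refine pow_le_pow_left₀ (by positivity) ?_ _
          have : k + 1 ≤ 2 ^ k := Nat.lt_two_pow_self
          exact_mod_cast this
      _ ≤ ((2 : ℚ) ^ k) ^ (ro D) :=
          pow_le_pow_right₀ (one_le_pow₀ (by norm_num)) a.2.le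
      _ = ((2 : ℚ) ^ (ro D)) ^ k := by rw [← pow_mul, ← pow_mul, mul_comm]
  · rw [Ak, mul_pow (D.lam * (4 * (ro D : ℚ) ^ 2) ^ D.s)]
    refine (nl_mul _ _ _).trans (mul_le_mul (nl_Ak D (ro D) k) (nl_Ch (ro D) k) (nl_nonneg _ _)
      (by positivity))

theorem hgt : HgtStmt := by
  intro D a l
  obtain ⟨q', hq', h'⟩ := exists_q D
  obtain ⟨q, hqd⟩ : ∃ q, q = 2 * q' := ⟨_, rfl⟩
  have hq : 0 < q := by omega
  have hq2 : 2 ∣ q := ⟨q', hqd⟩
  have h : ∀ i, ∃ p : ℕ, 0 < p ∧ p < q ∧ D.al i = p / q := by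
    intro i
    obtain ⟨p, hp0, hp1, hp2⟩ := h' i
    refine ⟨2 * p, by omega, by omega, ?_⟩
    rw [hp2, hqd]
    push_cast
    have : (q' : ℚ) ≠ 0 := by exact_mod_cast hq'.ne'
    field_simp
  obtain ⟨L, hL, hL'⟩ := lcmUpto_le
  obtain ⟨G, hG⟩ := exists_nat_ge
    (2 ^ (ro D) * (D.lam * (4 * (ro D : ℚ) ^ 2) ^ D.s * (2 * (ro D : ℚ))))
  have hden : 0 < D.lam.den := D.lam.den_pos
  obtain ⟨E, hE⟩ : ∃ E, E = D.lam.den * q ^ (4 * D.s) * 4 * L ^ (q * ro D) := ⟨_, rfl⟩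
  have hE0 : 0 < E := by rw [hE]; positivity
  have hl := D.lam_pos.le
  refine ⟨G + E, by omega, fun k => ⟨?_, ?_⟩⟩
  · calc _ ≤ (2 ^ (ro D) * (D.lam * (4 * (ro D : ℚ) ^ 2) ^ D.s * (2 * (ro D : ℚ)))) ^ k :=
          growth D a l k
      _ ≤ ((G + E : ℕ) : ℚ) ^ k := by
          refine pow_le_pow_left₀ (by positivity) (hG.trans ?_) k
          exact_mod_cast Nat.le_add_right G E
      _ ≤ ((G + E : ℕ) : ℚ) ^ (k + 1) := by
          refine pow_le_pow_right₀ ?_ (Nat.le_succ k)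
          exact_mod_cast (by omega : 1 ≤ G + E)
  · refine ⟨(D.lam.den * q ^ (4 * D.s) * 4) ^ k * Nat.lcmUpto (q * k) ^ (ro D), ?_, ?_,
      fun i hi => ?_⟩
    · have := Nat.lcmUpto_pos (q * k)
      positivity
    · calc (D.lam.den * q ^ (4 * D.s) * 4) ^ k * Nat.lcmUpto (q * k) ^ (ro D)
          ≤ (D.lam.den * q ^ (4 * D.s) * 4) ^ k * (L ^ (q * k)) ^ (ro D) :=
            Nat.mul_le_mul_left _ (Nat.pow_le_pow_left (hL' _) _)
        _ = E ^ k := by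
            rw [hE, mul_pow _ (L ^ (q * ro D)), ← pow_mul, ← pow_mul, mul_right_comm q (ro D) k]
        _ ≤ (G + E) ^ k := Nat.pow_le_pow_left (Nat.le_add_left E G) k
        _ ≤ (G + E) ^ (k + 1) := Nat.pow_le_pow_right (by omega) (Nat.le_succ k)
    · exact mem_Zr.mp (coeff_mem D hq hq2 h hi a l)

end Pool.Agent.MT100B.H39
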